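import Pool.Agent.H242.GX.Stm2

/-!
# GX-UNIQ (project of helper242): formal uniqueness of the exterior foliations

helper441.
-/

set_option autoImplicit false

open Set Filter Topology
open scoped ContDiff

namespace Pool.Agent.H441.GX

open Pool.Agent.H242.GX

/-- periodic functions are bounded on strips -/
lemma bdd_strip (R : ℝ × ℝ → ℝ) (hR : Continuous R)
    (hper : ∀ φ y : ℝ, R (φ + 2 * Real.pi, y) = R (φ, y)) (y₀ : ℝ) :
    ∃ C : ℝ, 0 ≤ C ∧ ∀ φ y : ℝ, |y| ≤ y₀ → |R (φ, y)| ≤ C := by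
  obtain ⟨C, hC⟩ := (isCompact_Icc.prod isCompact_Icc :
    IsCompact (Icc (0 : ℝ) (2 * Real.pi) ×ˢ Icc (-y₀) y₀)).exists_bound_of_continuousOn
    hR.continuousOn
  refine ⟨max C 0, le_max_right _ _, fun φ y hy => ?_⟩
  have hp : Function.Periodic (fun φ => R (φ, y)) (2 * Real.pi) := fun φ => hper φ y
  obtain ⟨φ', hφ', h⟩ := hp.exists_mem_Ico₀ (by positivity) φ
  have h' : R (φ, y) = R (φ', y) := h
  rw [h']
  have h2 := hC (φ', y) ⟨⟨hφ'.1, hφ'.2.le⟩, abs_le.1 hy⟩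
  rw [Real.norm_eq_abs] at h2
  exact h2.trans (le_max_left _ _)

lemma ip_Psi (p : ℝ → ℝ) (φ y : ℝ) : ip (Psi p φ y) (nu φ) = p φ + y := by
  have h := Real.sin_sq_add_cos_sq φ
  simp only [ip, Psi, gam, nu, e, Complex.add_re, Complex.add_im, Complex.real_smul,
    Complex.mul_re, Complex.mul_im, Complex.ofReal_re, Complex.ofReal_im]
  linear_combination (p φ + y) * h

lemma ip_sub_le (z w : ℂ) (φ : ℝ) : ip z (nu φ) - ip w (nu φ) ≤ dist z w := by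
  have h := Real.sin_sq_add_cos_sq φ
  rw [dist_eq_norm, Complex.norm_def]
  refine (le_abs_self _).trans (Real.abs_le_sqrt ?_)
  rw [Complex.normSq_apply]
  simp only [ip, nu, Complex.sub_re, Complex.sub_im]
  have h2 : (z.re - w.re) * (z.re - w.re) + (z.im - w.im) * (z.im - w.im) =
      ((z.re - w.re) ^ 2 + (z.im - w.im) ^ 2) * (Real.sin φ ^ 2 + Real.cos φ ^ 2) := by
    rw [h]
    ring
  rw [h2]
  nlinarith [sq_nonneg ((z.re - w.re) * Real.cos φ + (z.im - w.im) * Real.sin φ)]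

lemma le_infDist (p : ℝ → ℝ) (hne : (body p).Nonempty) (φ y : ℝ) :
    y ≤ Metric.infDist (Psi p φ y) (body p) := by
  rw [Metric.le_infDist hne]
  intro w hw
  have h1 := ip_sub_le (Psi p φ y) w φ
  rw [ip_Psi] at h1
  have h2 : ip w (nu φ) ≤ p φ := hw φ
  linarith

/-- Taylor expansion of order two -/
lemma had2 (hHAD : S_HAD) (H : ℝ × ℝ → ℝ) (hH : ContDiff ℝ ∞ H) (h0 : ∀ φ : ℝ, H (φ, 0) = 0) :
    ∃ (u : ℝ → ℝ) (K : ℝ × ℝ → ℝ), ContDiff ℝ ∞ u ∧ ContDiff ℝ ∞ K ∧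
      (∀ φ y : ℝ, H (φ, y) = y * u φ + y ^ 2 * K (φ, y)) ∧
      ∀ φ : ℝ, deriv (fun y => H (φ, y)) 0 = u φ := by
  obtain ⟨g, hg, hg1⟩ := hHAD H hH h0
  have hu : ContDiff ℝ ∞ fun φ : ℝ => g (φ, 0) := hg.comp (contDiff_id.prodMk contDiff_const)
  have hg2 : ContDiff ℝ ∞ fun x : ℝ × ℝ => g x - g (x.1, 0) :=
    hg.sub (hu.comp contDiff_fst)
  obtain ⟨K, hK, hK1⟩ := hHAD (fun x => g x - g (x.1, 0)) hg2 (fun θ => sub_self _)
  have hexp : ∀ φ y : ℝ, H (φ, y) = y * g (φ, 0) + y ^ 2 * K (φ, y) := by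
    intro φ y
    have h1 : g (φ, y) - g (φ, 0) = y * K (φ, y) := hK1 φ y
    rw [hg1]
    linear_combination y * h1
  refine ⟨fun φ => g (φ, 0), K, hu, hK, hexp, fun φ => ?_⟩
  have hKd : DifferentiableAt ℝ (fun y : ℝ => K (φ, y)) 0 :=
    ((hK.comp (contDiff_const.prodMk contDiff_id)).differentiable (by simp)) 0
  have h1 : HasDerivAt (fun y : ℝ => y * g (φ, 0) + y ^ 2 * K (φ, y))
      (1 * g (φ, 0) + (((2 : ℕ) : ℝ) * (0 : ℝ) ^ (2 - 1) * K (φ, 0) +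
        (0 : ℝ) ^ 2 * deriv (fun y : ℝ => K (φ, y)) 0)) 0 :=
    ((hasDerivAt_id (0 : ℝ)).mul_const _).add ((hasDerivAt_pow 2 (0 : ℝ)).mul hKd.hasDerivAt)
  have h2 : (fun y : ℝ => H (φ, y)) = fun y : ℝ => y * g (φ, 0) + y ^ 2 * K (φ, y) := by
    funext y
    exact hexp φ y
  rw [h2, h1.deriv]
  simp

/-- the equation of the first order -/
lemma first_order (hLIN : S_LIN) (hHAD : S_HAD) (X Z : ℝ × ℝ → ℝ × ℝ) (hW : Web X Z)
    (H : ℝ × ℝ → ℝ) (u : ℝ → ℝ) (K : ℝ × ℝ → ℝ) (hu : PP u) (hK : ContDiff ℝ ∞ K)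
    (hexp : ∀ φ y : ℝ, H (φ, y) = y * u φ + y ^ 2 * K (φ, y))
    (hodd : ∀ θ : ℝ, ∃ r : ℝ, 0 < r ∧ ∀ t : ℝ, |t| < r → Odd X H θ t = 0) (θ : ℝ) :
    deriv (fun t => (X (θ, t)).2) 0 * deriv (fun t => (X (θ, t)).1) 0 * deriv u θ
      + deriv (deriv (fun t => (X (θ, t)).2)) 0 * u θ = 0 := by
  obtain ⟨s, hs, hs1, -, hs3⟩ := hLIN X Z hW 1 le_rfl u hu
  obtain ⟨r₁, hr₁, hr2⟩ := hHAD (fun x => (X x).2) (contDiff_snd.comp hW.smX) (fun θ => by
    rw [hW.axis])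
  have hr3 : ∀ t : ℝ, (X (θ, t)).2 = t * r₁ (θ, t) := fun t => hr2 θ t
  obtain ⟨r, hr, hodd0⟩ := hodd θ
  have cs : Continuous s := hs.continuous
  have cr1 : Continuous r₁ := hr₁.continuous
  have cK : Continuous K := hK.continuous
  have cX : Continuous X := hW.smX.continuous
  set F : ℝ → ℝ := fun t => s (θ, t) + t * (r₁ (θ, t) ^ 4 * K ((X (θ, t)).1, (X (θ, t)).2 ^ 2)
    - r₁ (θ, -t) ^ 4 * K ((X (θ, -t)).1, (X (θ, -t)).2 ^ 2)) with hF
  have cF : Continuous F := by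
    rw [hF]
    fun_prop
  have hF0 : ∀ t : ℝ, |t| < r → t ≠ 0 → F t = 0 := by
    intro t ht ht0
    have h1 : Odd X H θ t = 0 := hodd0 t ht
    have h2 : Odd X (fun x => x.2 ^ 1 * u x.1) θ t = t ^ (2 * 1 + 1) * s (θ, t) := hs1 θ t
    have h3 : (X (θ, t)).2 ^ 2 * u (X (θ, t)).1 - (X (θ, -t)).2 ^ 2 * u (X (θ, -t)).1 =
        t ^ 3 * s (θ, t) := by
      have h4 : ((X (θ, t)).2 ^ 2) ^ 1 * u (X (θ, t)).1 -
          ((X (θ, -t)).2 ^ 2) ^ 1 * u (X (θ, -t)).1 = t ^ (2 * 1 + 1) * s (θ, t) := h2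
      simpa only [pow_one] using h4
    have h5 : H ((X (θ, t)).1, (X (θ, t)).2 ^ 2) - H ((X (θ, -t)).1, (X (θ, -t)).2 ^ 2) = 0 := h1
    rw [hexp, hexp] at h5
    have h6 : (X (θ, t)).2 ^ 4 = t ^ 4 * r₁ (θ, t) ^ 4 := by rw [hr3, mul_pow]
    have h7 : (X (θ, -t)).2 ^ 4 = t ^ 4 * r₁ (θ, -t) ^ 4 := by
      rw [hr3, mul_pow]
      ring
    have h8 : t ^ 3 * F t = 0 := by
      simp only [hF]
      linear_combination h5 - h3 - K ((X (θ, t)).1, (X (θ, t)).2 ^ 2) * h6 +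
        K ((X (θ, -t)).1, (X (θ, -t)).2 ^ 2) * h7
    exact (mul_eq_zero.1 h8).resolve_left (pow_ne_zero 3 ht0)
  have hF00 : F 0 = 0 := by
    have h1 : Tendsto F (𝓝[≠] 0) (𝓝 (F 0)) := (cF.tendsto 0).mono_left nhdsWithin_le_nhds
    have h2 : Tendsto F (𝓝[≠] 0) (𝓝 0) := by
      refine tendsto_const_nhds.congr' ?_
      have h3 : ∀ᶠ t in 𝓝[≠] (0 : ℝ), |t| < r := by
        refine nhdsWithin_le_nhds ?_
        have := Metric.ball_mem_nhds (0 : ℝ) hr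
        filter_upwards [this] with t ht
        rwa [Metric.mem_ball, Real.dist_eq, sub_zero] at ht
      filter_upwards [h3, self_mem_nhdsWithin] with t ht ht0
      exact (hF0 t ht ht0).symm
    exact tendsto_nhds_unique h1 h2
  have hs0 : s (θ, 0) = 0 := by
    simp only [hF, zero_mul, add_zero] at hF00
    exact hF00
  rw [hs3 θ] at hs0
  have hb := (hW.der2 θ).ne'
  have h9 : (2 * deriv (fun t => (X (θ, t)).2) 0) *
      (deriv (fun t => (X (θ, t)).2) 0 * deriv (fun t => (X (θ, t)).1) 0 * deriv u θ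
      + deriv (deriv (fun t => (X (θ, t)).2)) 0 * u θ) = 0 := by
    rw [show 2 * 1 - 1 = 1 from rfl, Nat.cast_one] at hs0
    linear_combination hs0
  exact (mul_eq_zero.1 h9).resolve_left (mul_ne_zero two_ne_zero hb)

theorem gx_UNIQ (hWEB : S_WEB) (hPULL : S_PULL) (hUNQ : S_UNQ) (hLIN : S_LIN) (hHAD : S_HAD)
    (hPSI : S_PSI) (hBODY : S_BODY) (hDER : S_DER) : S_UNIQ := by
  intro p hp U₁ U₂ Y₁ Y₂ hF₁ hF₂ hev₁ hev₂
  obtain ⟨X, Z, hW⟩ := hWEB p hp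
  obtain ⟨H₁, y₁, hy₁, hH₁, hper₁, hz₁, hd₁, hpull₁, hodd₁⟩ := hPULL p X Z hW U₁ Y₁ hF₁ hev₁
  obtain ⟨H₂, y₂, hy₂, hH₂, hper₂, hz₂, hd₂, hpull₂, hodd₂⟩ := hPULL p X Z hW U₂ Y₂ hF₂ hev₂
  obtain ⟨hT, -, -, -⟩ := hBODY p hp
  have hne : (body p).Nonempty := hT.2.2.1.mono interior_subset
  refine ⟨fun N => ?_, ?_⟩
  · obtain ⟨f, R, hR, hRper, hRel⟩ := hUNQ X Z hW.toWeb H₁ H₂ hH₁ hH₂ hper₁ hper₂ hz₁ hz₂ hd₁
      hodd₁ hodd₂ N
    obtain ⟨C, hC0, hC⟩ := bdd_strip R hR.continuous hRper (min y₁ y₂)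
    refine ⟨f, C, min y₁ y₂, lt_min hy₁ hy₂, fun z hz hzd => ?_⟩
    obtain ⟨y₃, -, -, -, hsur, -⟩ := hPSI p hp
    obtain ⟨φ, y, hy, rfl⟩ := hsur z hz
    have h1 : y ≤ Metric.infDist (Psi p φ y) (body p) := le_infDist p hne φ y
    have h2 : |y| < min y₁ y₂ := by
      rw [abs_of_nonneg hy]
      exact h1.trans_lt hzd
    obtain ⟨hU₁, hv₁⟩ := hpull₁ φ y (h2.trans_le (min_le_left _ _))
    obtain ⟨hU₂, hv₂⟩ := hpull₂ φ y (h2.trans_le (min_le_right _ _))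
    refine ⟨hU₁, hU₂, ?_⟩
    rw [← hv₁, ← hv₂, hRel φ y, add_sub_cancel_left, abs_mul, abs_pow, abs_of_nonneg hy, mul_comm]
    exact mul_le_mul (hC φ y h2.le) (pow_le_pow_left₀ hy h1 N) (by positivity) hC0
  · obtain ⟨u, K, hu, hK, hexp, hder⟩ := had2 hHAD H₁ hH₁ hz₁
    have hPPu : PP u := ⟨hu, fun φ => by
      rw [← hder, ← hder]
      simp only [hper₁]⟩
    have hfo := first_order hLIN hHAD X Z hW.toWeb H₁ u K hPPu hK hexp hodd₁
    have hupos : ∀ φ, 0 < u φ := fun φ => by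
      rw [← hder]
      exact hd₁ φ
    have hrpos : ∀ φ, 0 < rho p φ := hp.pos
    have hrsm : ContDiff ℝ ∞ (rho p) := by
      have h1 : ContDiff ℝ ∞ (deriv p) := by
        have h2 := (contDiff_infty_iff_deriv (f := p) (𝕜 := ℝ)).1 hp.smooth
        exact h2.2
      have h3 : ContDiff ℝ ∞ (deriv (deriv p)) := by
        have h2 := (contDiff_infty_iff_deriv (f := deriv p) (𝕜 := ℝ)).1 h1
        exact h2.2
      exact hp.smooth.add h3
    have hud : Differentiable ℝ u := hu.differentiable (by simp)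
    have hrd : Differentiable ℝ (rho p) := hrsm.differentiable (by simp)
    -- the equation
    have hode : ∀ θ, 3 * rho p θ * deriv u θ = deriv (rho p) θ * u θ := by
      intro θ
      obtain ⟨ha, -, hb2⟩ := hDER p X Z hW θ
      have h1 := hfo θ
      have hb := (hW.der2 θ).ne'
      have hr := (hrpos θ).ne'
      rw [ha, hb2] at h1
      have h2 : deriv (fun t => (X (θ, t)).2) 0 *
          (3 * rho p θ * deriv u θ - deriv (rho p) θ * u θ) = 0 := by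
        have h3 : deriv (fun t => (X (θ, t)).2) 0 *
          (3 * rho p θ * deriv u θ - deriv (rho p) θ * u θ) = 3 * rho p θ ^ 2 *
          (deriv (fun t => (X (θ, t)).2) 0 * (1 / rho p θ) * deriv u θ +
            -(deriv (fun t => (X (θ, t)).2) 0) * deriv (rho p) θ / (3 * rho p θ ^ 2) * u θ) := by
          field_simp
          ring
        rw [h3, h1, mul_zero]
      have h4 := (mul_eq_zero.1 h2).resolve_left hb
      linarith
    have hconst : ∀ θ θ', u θ ^ 3 / rho p θ = u θ' ^ 3 / rho p θ' := by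
      intro θ θ'
      refine is_const_of_deriv_eq_zero (f := fun θ => u θ ^ 3 / rho p θ)
        ((hud.pow 3).div hrd fun θ => (hrpos θ).ne') (fun θ => ?_) θ θ'
      have h1 : HasDerivAt (fun θ => u θ ^ 3 / rho p θ)
          ((((3 : ℕ) : ℝ) * u θ ^ (3 - 1) * deriv u θ * rho p θ - u θ ^ 3 * deriv (rho p) θ) /
            rho p θ ^ 2) θ :=
        ((hud θ).hasDerivAt.pow 3).div (hrd θ).hasDerivAt (hrpos θ).ne'
      rw [h1.deriv]
      have h2 : ((3 : ℕ) : ℝ) * u θ ^ (3 - 1) * deriv u θ * rho p θ - u θ ^ 3 * deriv (rho p) θ = 0 := by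
        have h3 := hode θ
        push_cast
        have h4 : u θ ^ (3 - 1) = u θ ^ 2 := rfl
        rw [h4]
        linear_combination u θ ^ 2 * h3
      rw [h2, zero_div]
    have hk0 : 0 < u 0 ^ 3 / rho p 0 := div_pos (pow_pos (hupos 0) 3) (hrpos 0)
    refine ⟨(u 0 ^ 3 / rho p 0) ^ ((1 : ℝ) / 3), Real.rpow_pos_of_pos hk0 _, fun θ => ?_⟩
    -- the normal derivative
    have hg : Psi p θ 0 = gam p θ := by
      simp [Psi]
    have hmem : gam p θ ∈ U₁ := by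
      rw [← hg]
      exact (hpull₁ θ 0 (by rw [abs_zero]; exact hy₁)).1
    have hYd : DifferentiableAt ℝ Y₁ (gam p θ) :=
      ((hF₁.smooth.contDiffAt (hF₁.isOpen.mem_nhds hmem)).differentiableAt (by simp))
    have hPd : HasDerivAt (fun y : ℝ => Psi p θ y) (nu θ) 0 := by
      have h1 : HasDerivAt (fun y : ℝ => gam p θ + y • nu θ) ((1 : ℝ) • nu θ) 0 :=
        ((hasDerivAt_id (0 : ℝ)).smul_const (nu θ)).const_add (gam p θ)
      rw [one_smul] at h1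
      exact h1
    have hcomp : HasDerivAt (fun y : ℝ => Y₁ (Psi p θ y)) (fderiv ℝ Y₁ (gam p θ) (nu θ)) 0 := by
      have h1 : HasFDerivAt Y₁ (fderiv ℝ Y₁ (gam p θ)) (Psi p θ 0) := by
        rw [hg]
        exact hYd.hasFDerivAt
      exact h1.comp_hasDerivAt (0 : ℝ) hPd
    have hnd : fderiv ℝ Y₁ (gam p θ) (nu θ) = u θ := by
      rw [← hder θ, ← hcomp.deriv]
      refine Filter.EventuallyEq.deriv_eq ?_
      have := Metric.ball_mem_nhds (0 : ℝ) hy₁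
      filter_upwards [this] with y hy
      rw [Metric.mem_ball, Real.dist_eq, sub_zero] at hy
      exact ((hpull₁ θ y hy).2).symm
    rw [hnd]
    unfold cr
    rw [← Real.mul_rpow hk0.le (hrpos θ).le, hconst 0 θ, div_mul_cancel₀ _ (hrpos θ).ne',
      ← Real.rpow_natCast, ← Real.rpow_mul (hupos θ).le]
    norm_num

end Pool.Agent.H441.GX
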